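import Pool.Agent.Helper69.EK.Stm
import Pool.Graph.R_pool_sql_team_seeded_1e53cb71.Helper6K9.EH.Ave

set_option autoImplicit false

/-! # [AVB]: the assembly of the averaging step -/

namespace Pool.Agent.Helper69.EK

open Set Filter Topology Pool.Agent.Helper6K9.ES
open Pool.Agent.Helper6K9.EH (Prof Fam eX eY dst pt Tr mkFam Pv Shf S_PROF S_FLOW)
open scoped ContDiff

namespace AVBL

open Pool.Agent.Helper6K9.EH.AveL (kap kap_per dX_le mvt norm_dir stay pt_per)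

/-- the averaged potential -/
noncomputable def G0 (γ l : ℝ) (k : ℝ → ℝ) (S : E 1 → ℝ) (p : E 1) : ℝ :=
  l ^ 2 / (2 * γ) * k (p.1 1) ^ 2 + S p

/-- its derivative in the direction of `y` -/
noncomputable def g0 (γ l : ℝ) (k : ℝ → ℝ) (S : E 1 → ℝ) (p : E 1) : ℝ :=
  l ^ 2 / γ * kap k p + dX 1 S p

theorem sq_per {k : ℝ → ℝ} {c : ℝ} (hk : Prof k c) (y : ℝ) (n : ℤ) :
    k (y + n) ^ 2 = k y ^ 2 := by
  have h0 : Function.Periodic (fun y => k y ^ 2) 1 := by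
    intro y
    show k (y + 1) ^ 2 = k y ^ 2
    rw [hk.anti]
    ring
  have h3 := h0.int_mul n y
  simpa using h3

theorem sm_G0 (γ l : ℝ) {k : ℝ → ℝ} {c : ℝ} {S : E 1 → ℝ} (hk : Prof k c) (hS : Sm S) :
    Sm (G0 γ l k S) := by
  constructor
  · have h2 : ContDiff ℝ ∞ fun p : E 1 => p.1 1 := by fun_prop
    exact (contDiff_const.mul ((hk.smooth.comp h2).pow 2)).add hS.1
  · intro p m n
    have h1 := hS.2 p m n
    have h2 := sq_per hk (p.1 1) (m 1)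
    unfold G0
    rw [h1]
    show l ^ 2 / (2 * γ) * k (p.1 1 + (m 1 : ℝ)) ^ 2 + S p = _
    rw [h2]

theorem hline {g : E 1 → ℝ} (hg : Differentiable ℝ g) (p w : E 1) :
    HasDerivAt (fun s : ℝ => g (p + s • w)) (fderiv ℝ g p w) 0 := by
  have h5 : HasDerivAt (fun s : ℝ => p + s • w) w 0 := by
    simpa using ((hasDerivAt_id (0 : ℝ)).smul_const w).const_add p
  have h4 : HasFDerivAt g (fderiv ℝ g p) (p + (0 : ℝ) • w) := by
    rw [zero_smul, add_zero]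
    exact (hg _).hasFDerivAt
  exact h4.comp_hasDerivAt (0 : ℝ) h5

theorem pt_line (p : E 1) (b s : ℝ) :
    p + s • ((![b, 1], 0) : E 1) = pt (p.1 0 + s * b) (p.1 1 + s) p.2 := by
  unfold pt
  ext j
  · fin_cases j
    · simp
    · simp
  · simp

theorem pt_line0 (p : E 1) (s : ℝ) :
    p + s • ((Pi.single 0 1, 0) : E 1) = pt (p.1 0 + s) (p.1 1) p.2 := by
  unfold pt
  ext j
  · fin_cases j
    · simp
    · simp
  · simp

theorem single_eq : ((Pi.single 1 1, 0) : E 1) = (![0, 1], 0) := by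
  ext j
  · fin_cases j
    · simp
    · simp
  · simp

theorem dX0_zero {S : E 1 → ℝ} (hS : Differentiable ℝ S)
    (hx : ∀ x x' y t : ℝ, S (pt x y t) = S (pt x' y t)) (p : E 1) : dX 0 S p = 0 := by
  have h1 := hline hS p (Pi.single 0 1, 0)
  have h2 : (fun s : ℝ => S (p + s • ((Pi.single 0 1, 0) : E 1))) = fun _ => S p := by
    funext s
    rw [pt_line0, hx _ (p.1 0)]
    have := pt_line0 p 0
    rw [zero_smul, add_zero, add_zero] at this
    rw [← this]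
  rw [h2] at h1
  exact h1.unique (hasDerivAt_const _ _)

theorem dirS {S : E 1 → ℝ} (hS : Differentiable ℝ S)
    (hx : ∀ x x' y t : ℝ, S (pt x y t) = S (pt x' y t)) (b : ℝ) (p : E 1) :
    HasDerivAt (fun s : ℝ => S (pt (p.1 0 + s * b) (p.1 1 + s) p.2)) (dX 1 S p) 0 := by
  have h1 := hline hS p (Pi.single 1 1, 0)
  have h2 : (fun s : ℝ => S (p + s • ((Pi.single 1 1, 0) : E 1))) =
      fun s => S (pt (p.1 0 + s * b) (p.1 1 + s) p.2) := by
    funext s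
    rw [single_eq, pt_line]
    exact hx _ _ _ _
  rw [h2] at h1
  exact h1

theorem dirG {γ l c : ℝ} {k : ℝ → ℝ} {S : E 1 → ℝ} (hγ : γ ≠ 0) (hk : Prof k c) (hS : Sm S)
    (hx : ∀ x x' y t : ℝ, S (pt x y t) = S (pt x' y t)) (b : ℝ) (p : E 1) :
    HasDerivAt (fun s : ℝ => G0 γ l k S (pt (p.1 0 + s * b) (p.1 1 + s) p.2))
      (g0 γ l k S p) 0 := by
  have h1 := dirS (hS.1.differentiable (by simp)) hx b p
  have hkd : HasDerivAt k (deriv k (p.1 1 + 0)) (p.1 1 + 0) :=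
    (hk.smooth.differentiable (by simp) _).hasDerivAt
  have h2 : HasDerivAt (fun s : ℝ => k (p.1 1 + s)) (deriv k (p.1 1 + 0)) 0 :=
    hkd.comp_const_add (p.1 1) 0
  have h3 := ((h2.pow 2).const_mul (l ^ 2 / (2 * γ))).add h1
  refine h3.congr_deriv ?_
  unfold g0 kap
  simp only [add_zero]
  field_simp
  ring

theorem dX0_G0 {γ l c : ℝ} {k : ℝ → ℝ} {S : E 1 → ℝ} (hk : Prof k c) (hS : Sm S)
    (hx : ∀ x x' y t : ℝ, S (pt x y t) = S (pt x' y t)) (p : E 1) : dX 0 (G0 γ l k S) p = 0 :=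
  dX0_zero ((sm_G0 γ l hk hS).1.differentiable (by simp))
    (fun x x' y t => by unfold G0; rw [hx x x']; rfl) p

theorem dX1_G0 {γ l c : ℝ} {k : ℝ → ℝ} {S : E 1 → ℝ} (hγ : γ ≠ 0) (hk : Prof k c) (hS : Sm S)
    (hx : ∀ x x' y t : ℝ, S (pt x y t) = S (pt x' y t)) (p : E 1) :
    dX 1 (G0 γ l k S) p = g0 γ l k S p := by
  have h1 := hline ((sm_G0 γ l hk hS).1.differentiable (by simp)) p (Pi.single 1 1, 0)
  have h2 := dirG (l := l) hγ hk hS hx 0 p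
  have h3 : (fun s : ℝ => G0 γ l k S (p + s • ((Pi.single 1 1, 0) : E 1))) =
      fun s => G0 γ l k S (pt (p.1 0 + s * 0) (p.1 1 + s) p.2) := by
    funext s
    rw [single_eq, pt_line]
  rw [h3] at h1
  exact h1.unique h2

theorem av_G0 {γ l : ℝ} {k : ℝ → ℝ} {S : E 1 → ℝ}
    (hx : ∀ x x' y t : ℝ, S (pt x y t) = S (pt x' y t)) (p : E 1) (s : ℝ) :
    G0 γ l k S (p.1 + s • Pi.single (0 : Fin (1 + 1)) (1 : ℝ), p.2) = G0 γ l k S p := by
  have h1 : ((p.1 + s • Pi.single (0 : Fin (1 + 1)) (1 : ℝ), p.2) : E 1) =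
      pt (p.1 0 + s) (p.1 1) p.2 := by
    rw [← pt_line0]
    ext j
    · simp
    · simp
  have h2 : p = pt (p.1 0) (p.1 1) p.2 := by
    have := pt_line0 p 0
    rwa [zero_smul, add_zero, add_zero] at this
  rw [h1]
  conv_rhs => rw [h2]
  unfold G0
  rw [hx _ (p.1 0)]
  rfl

theorem av_Fh {F : E 1 → ℝ} {γ l : ℝ} {k : ℝ → ℝ} {S : E 1 → ℝ} (hF : Sm F)
    (h0 : ∀ p, av F p = 0) (hx : ∀ x x' y t : ℝ, S (pt x y t) = S (pt x' y t)) (p : E 1) :
    av (fun p => F p + G0 γ l k S p) p = G0 γ l k S p := by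
  have h1 := h0 p
  unfold av at h1 ⊢
  simp only [av_G0 hx p]
  rw [intervalIntegral.integral_add, h1]
  · simp
  · apply Continuous.intervalIntegrable
    exact hF.1.continuous.comp (by fun_prop)
  · exact intervalIntegrable_const

/-- the derivative of the effective Hamiltonian at `δ = 0` -/
theorem pd_h {γ l c b : ℝ} {k : ℝ → ℝ} {S : E 1 → ℝ} (hγ : γ ≠ 0) (hk : Prof k c) (hS : Sm S)
    (hx : ∀ x x' y t : ℝ, S (pt x y t) = S (pt x' y t)) {h : PP → ℝ} (hh : SP h)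
    (h0 : ∀ (p : E 1) (W : ℝ), h (p, 0, W) = -G0 γ l k S p) (p : E 1) (W : ℝ) :
    pd (vy b) h (p, 0, W) = -g0 γ l k S p := by
  have h5 : HasDerivAt (fun s : ℝ => ((p, 0, W) : PP) + s • vy b) (vy b) 0 := by
    simpa using ((hasDerivAt_id (0 : ℝ)).smul_const (vy b)).const_add ((p, 0, W) : PP)
  have h4 : HasFDerivAt h (fderiv ℝ h (p, 0, W)) (((p, 0, W) : PP) + (0 : ℝ) • vy b) := by
    rw [zero_smul, add_zero]
    exact (hh.1.differentiable (by simp) _).hasFDerivAt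
  have h1 : HasDerivAt (fun s : ℝ => h (((p, 0, W) : PP) + s • vy b)) (pd (vy b) h (p, 0, W)) 0 :=
    h4.comp_hasDerivAt (0 : ℝ) h5
  have h2 : (fun s : ℝ => h (((p, 0, W) : PP) + s • vy b)) =
      fun s => -G0 γ l k S (pt (p.1 0 + s * b) (p.1 1 + s) p.2) := by
    funext s
    rw [← h0 _ W, ← pt_line]
    congr 1
    unfold vy
    ext j
    · simp
    · simp
    · simp
    · simp
  rw [h2] at h1
  exact h1.unique (dirG hγ hk hS hx b p).neg

/-- the errors along the solutions -/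
theorem errs {κ N : ℕ} {α γ b l c R C V₀ : ℝ} {k : ℝ → ℝ} {Fh S : E 1 → ℝ} {σ₁ h ρ : PP → ℝ}
    {Jf wf : ℝ → ℝ → E 1 → ℝ} (ava : S_AVA) (hα : 0 < α) (hγ : 0 < γ) (hk : Prof k c)
    (hFh : Sm Fh) (hσ : SP σ₁) (hh : SP h) (hρ : SP ρ) (hx : ∀ z, pd vx h z = 0)
    (hres : ∀ z, resid α γ b Fh σ₁ h z = z.2.1 ^ N * ρ z) (hC : 1 ≤ C) (hV0 : 2 * C ≤ V₀)
    (hI : Inv α γ b R σ₁ Jf wf C V₀) (hSp : Per S) {K f : E 1 → ℝ} (hK : Per K)
    (hf : ∀ p, dX 0 f p = dX 0 Fh p + dX 0 K p ∧ dX 1 f p = dX 1 Fh p + dX 1 K p)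
    (χ ps cb : ℝ → ℝ) {p₀ p₁ v q : ℝ → ℝ → ℝ} (n : ℤ) (s : ℝ)
    (hT : Tr α γ b f (p₀ s) (p₁ s) (v s) (q s)) (t : ℝ) (hv : V₀ < v s t) (hq : |q s t| < R)
    (hdt : dt α γ b σ₁ (pt (p₀ s t) (p₁ s t) t, 1 / Jf (v s t) (q s t) (pt (p₀ s t) (p₁ s t) t),
      wf (v s t) (q s t) (pt (p₀ s t) (p₁ s t) t)) ≠ 0) :
    let e := mkEnv κ α γ b l c k χ ps cb S K
    let G := mkFam b Jf wf p₀ p₁ v q n
    let P := pt (p₀ s t) (p₁ s t) t
    let z : PP := (P, 1 / G.J s t, G.w s t)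
    (DifferentiableAt ℝ (G.X s) t ∧ DifferentiableAt ℝ (G.J s) t ∧
      DifferentiableAt ℝ (G.Y s) t ∧ DifferentiableAt ℝ (G.w s) t) ∧
    eX G s t = α * pd vx (dl σ₁) z ∧ eY G s t = γ * pd (vy b) (dl σ₁) z ∧
    ew e G s t = WJ α γ b N σ₁ h ρ z (dX 0 K P) (dX 1 K P + b * dX 0 K P) -
      γ * (g0 γ l k S P + (dX 1 K P + b * dX 0 K P)) ∧
    eJ e G s t = PJ α γ b N σ₁ ρ z (dX 0 K P) (dX 1 K P + b * dX 0 K P) - α * dX 0 K P ∧
    e.Kx (G.X s t) (G.Y s t) t = dX 0 K P ∧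
    e.Kz (G.X s t) (G.Y s t) t = dX 1 K P + b * dX 0 K P := by
  intro e G P z
  obtain ⟨hp0, hp1, -, -⟩ := hT t
  obtain ⟨hJ, hw⟩ := ava α γ b R C V₀ Fh N σ₁ h ρ Jf wf hα hγ hFh hσ hh hρ hx hres hC hV0 hI K f hf
    (p₀ s) (p₁ s) (v s) (q s) hT t hv hq z rfl hdt
  obtain ⟨-, -, hX, hY⟩ := hI.eqs (v s t) (q s t) P hv.le hq.le
  have dXt : HasDerivAt (G.X s) (v s t) t := by
    have h1 := hp0.sub ((hp1.sub_const (n : ℝ)).const_mul b)
    exact h1.congr_deriv (by ring)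
  have dYt : HasDerivAt (G.Y s) (q s t) t := hp1.sub_const (n : ℝ)
  have dJt : HasDerivAt (G.J s)
    (PJ α γ b N σ₁ ρ z (dX 0 K P) (dX 1 K P + b * dX 0 K P)) t := hJ
  have dwt : HasDerivAt (G.w s)
    (WJ α γ b N σ₁ h ρ z (dX 0 K P) (dX 1 K P + b * dX 0 K P)) t := hw
  have eKx : e.Kx (G.X s t) (G.Y s t) t = dX 0 K P := pt_per hK 0 b (p₀ s t) (p₁ s t) t n
  have eKz : e.Kz (G.X s t) (G.Y s t) t = dX 1 K P + b * dX 0 K P := by
    have h1 := pt_per hK 0 b (p₀ s t) (p₁ s t) t n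
    have h2 := pt_per hK 1 b (p₀ s t) (p₁ s t) t n
    show dX 1 K _ + b * dX 0 K _ = dX 1 K P + b * dX 0 K P
    exact congrArg₂ (fun x y => x + b * y) h2 h1
  have eKy : e.Ky (G.X s t) (G.Y s t) t = dX 1 S P + (dX 1 K P + b * dX 0 K P) := by
    have h1 := pt_per hSp 1 b (p₀ s t) (p₁ s t) t n
    exact congrArg₂ (fun x y => x + y) h1 eKz
  have ek : k (p₁ s t - n) * deriv k (p₁ s t - n) = kap k P := by
    have h1 := kap_per hk (p₁ s t) (-n)
    rw [Int.cast_neg, ← sub_eq_add_neg] at h1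
    rw [h1]
    rfl
  refine ⟨⟨dXt.differentiableAt, dJt.differentiableAt, dYt.differentiableAt,
    dwt.differentiableAt⟩, ?_, ?_, ?_, ?_, eKx, eKz⟩
  · unfold eX
    rw [dXt.deriv]
    show v s t - Jf (v s t) (q s t) P = α * pd vx (dl σ₁)
      (P, 1 / Jf (v s t) (q s t) P, wf (v s t) (q s t) P)
    linarith
  · unfold eY
    rw [dYt.deriv]
    show q s t - wf (v s t) (q s t) P = γ * pd (vy b) (dl σ₁)
      (P, 1 / Jf (v s t) (q s t) P, wf (v s t) (q s t) P)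
    linarith
  · unfold ew
    rw [dwt.deriv, eKy]
    show WJ α γ b N σ₁ h ρ z (dX 0 K P) (dX 1 K P + b * dX 0 K P) -
      (l ^ 2 * k (p₁ s t - n) * deriv k (p₁ s t - n) +
        γ * (dX 1 S P + (dX 1 K P + b * dX 0 K P))) = _
    rw [mul_assoc (l ^ 2), ek]
    unfold g0
    field_simp
    ring
  · unfold eJ
    rw [dJt.deriv, eKx]
    rfl

theorem lipK {K : E 1 → ℝ} (hK2 : ContDiff ℝ 2 K) (hK : Small K 1) (i : Fin (1 + 1))
    (p p' : E 1) (hp : p.2 = p'.2) :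
    |dX i K p - dX i K p'| ≤ |p.1 0 - p'.1 0| + |p.1 1 - p'.1 1| := by
  have h0 : Differentiable ℝ (fderiv ℝ K) :=
    (hK2.fderiv_right (m := 1) (by norm_num)).differentiable (by norm_num)
  have h1 := mvt h0 (fun p => (hK p).2.2) zero_le_one p p' hp
  have h2 := (fderiv ℝ K p - fderiv ℝ K p').le_opNorm (Pi.single i 1, 0)
  rw [Real.norm_eq_abs] at h2
  refine h2.trans ?_
  have h3 := norm_nonneg (fderiv ℝ K p - fderiv ℝ K p')
  have := mul_le_mul h1 (norm_dir i) (norm_nonneg _) (h3.trans h1)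
  linarith

/-- the sum of the distances -/
theorem sum_le {b x₀ x₁ x₀' x₁' X X' Y Y' P P' W W' kx kz kx' kz' : ℝ}
    (hX : X = x₀ - b * Y) (hX' : X' = x₀' - b * Y') (hY : Y - Y' = x₁ - x₁')
    (h1 : |kx - kx'| ≤ |x₀ - x₀'| + |x₁ - x₁'|)
    (h2 : |kz - kz'| ≤ (1 + |b|) * (|x₀ - x₀'| + |x₁ - x₁'|)) :
    |x₀ - x₀'| + |x₁ - x₁'| + |P - P'| + |W - W'| + |kx - kx'| + |kz - kz'| ≤
      (3 + |b|) * (1 + |b|) * (|X - X'| + |P - P'| + |Y - Y'| + |W - W'|) := by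
  have h3 : |x₀ - x₀'| ≤ |X - X'| + |b| * |Y - Y'| := by
    have e : x₀ - x₀' = (X - X') + b * (Y - Y') := by rw [hX, hX']; ring
    rw [e, ← abs_mul]
    exact abs_add_le _ _
  rw [← hY] at h1 h2 ⊢
  have a1 := abs_nonneg (X - X')
  have a2 := abs_nonneg (Y - Y')
  have a3 := abs_nonneg (P - P')
  have a4 := abs_nonneg (W - W')
  have a5 := abs_nonneg b
  have a6 := abs_nonneg (x₀ - x₀')
  have b1 : |x₀ - x₀'| + |Y - Y'| ≤ (1 + |b|) * (|X - X'| + |Y - Y'|) := by nlinarith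
  have b2 : |x₀ - x₀'| + |Y - Y'| + |kx - kx'| + |kz - kz'| ≤
      (3 + |b|) * ((1 + |b|) * (|X - X'| + |Y - Y'|)) := by
    have := mul_le_mul_of_nonneg_left b1 (by linarith : 0 ≤ 3 + |b|)
    nlinarith
  have b3 : |P - P'| + |W - W'| ≤ (3 + |b|) * (1 + |b|) * (|P - P'| + |W - W'|) := by
    have : 1 ≤ (3 + |b|) * (1 + |b|) := by nlinarith
    nlinarith
  nlinarith

theorem near_mono {Jf wf : ℝ → ℝ → E 1 → ℝ} {C V₀ C' V₀' : ℝ} (h : NearId Jf wf C V₀)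
    (hC : C ≤ C') (hV : V₀ ≤ V₀') (hV0 : 0 < V₀) : NearId Jf wf C' V₀' := by
  obtain ⟨h1, h2, h3⟩ := h
  refine ⟨fun v q p hv hq => ?_, fun V v v' q q' p p' hV' hv hv' hq hq' hp => ?_,
    h3.mono fun z hz => ⟨hV.trans hz.1, hz.2⟩⟩
  · obtain ⟨a1, a2⟩ := h1 v q p (hV.trans hv) hq
    have hv0 : 0 < v := by linarith
    have : C / v ≤ C' / v := by gcongr
    exact ⟨a1.trans this, a2.trans this⟩
  · obtain ⟨a1, a2⟩ := h2 V v v' q q' p p' (hV.trans hV') hv hv' hq hq' hp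
    have hv0 : 0 < V := by linarith
    have a3 : C / V ≤ C' / V := by gcongr
    have a4 := mul_le_mul_of_nonneg_right a3
      (by positivity : 0 ≤ |v - v'| + |q - q'| + |p.1 0 - p'.1 0| + |p.1 1 - p'.1 1|)
    exact ⟨a1.trans a4, a2.trans a4⟩

end AVBL

open AVBL in
open Pool.Agent.Helper6K9.EH.AveL (kap kap_per dX_le mvt norm_dir stay pt_per dY_le sm_add sm_dX) in
theorem avb : S_AVB := by
  intro hj inv ava avl κ α γ b l c k₂ k F S hα hγ hl hl1 hk₂ hk hF h0 hS hSx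
  have hG : Sm (G0 γ l k S) := sm_G0 γ l hk hS
  obtain ⟨Fh, hFhe⟩ : ∃ Fh : E 1 → ℝ, Fh = fun p => F p + G0 γ l k S p := ⟨_, rfl⟩
  have hFh : Sm Fh := hFhe ▸ sm_add hF hG
  have hd : ∀ (i : Fin (1 + 1)) p, dX i Fh p = dX i F p + dX i (G0 γ l k S) p := by
    intro i p
    rw [hFhe]
    unfold dX
    rw [fderiv_fun_add (hF.1.differentiable (by simp) _) (hG.1.differentiable (by simp) _)]
    rfl
  have hd0 : ∀ p, dX 0 Fh p = dX 0 F p := fun p => by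
    rw [hd, dX0_G0 hk hS hSx, add_zero]
  have hd1 : ∀ p, dX 1 Fh p = dX 1 F p + g0 γ l k S p := fun p => by
    rw [hd, dX1_G0 hγ.ne' hk hS hSx]
  obtain ⟨σ₁, h, ρ, hσ, hh, hρ, hx, hh0, hres⟩ := hj α γ b Fh (κ + 3) hFh
  have hh0' : ∀ (p : E 1) (W : ℝ), h (p, 0, W) = -G0 γ l k S p := by
    intro p W
    rw [hh0 (by omega) p W, hFhe, av_Fh hF h0 hSx]
  have hg0 := pd_h (b := b) hγ.ne' hk hS hSx hh hh0'
  obtain ⟨Cx, hCx, hbx⟩ := CmpL.per_bd (sm_dX 0 hFh).1.continuous (sm_dX 0 hFh).2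
  obtain ⟨Cy, hCy, hby⟩ := CmpL.per_bd (sm_dX 1 hFh).1.continuous (sm_dX 1 hFh).2
  obtain ⟨M, hM⟩ : ∃ M, M = α * (Cx + 1) + γ * ((Cy + 1) + |b| * (Cx + 1)) := ⟨_, rfl⟩
  have hb0 := abs_nonneg b
  have hM0 : 0 ≤ M := by rw [hM]; positivity
  have hMk : 0 ≤ M * k₂ := mul_nonneg hM0 hk₂
  obtain ⟨R, hR⟩ : ∃ R, R = 3 + M * k₂ := ⟨_, rfl⟩
  have hR2 : 2 ≤ R := by linarith
  obtain ⟨Jf, wf, C₁, V₁, hC₁, hV₁, hI⟩ := inv α γ b R σ₁ hR2 hσ
  obtain ⟨C₂, V₂, hC₂, hV₂, hL⟩ := avl κ α γ b R σ₁ h ρ (g0 γ l k S) hα hγ hσ hh hρ hg0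
  obtain ⟨C, hC⟩ : ∃ C, C = C₁ + C₂ * ((3 + |b|) * (1 + |b|)) := ⟨_, rfl⟩
  have hbb : 1 ≤ (3 + |b|) * (1 + |b|) := by nlinarith
  have hC₂C : C₂ * ((3 + |b|) * (1 + |b|)) ≤ C := by linarith
  have hC₂C' : C₂ ≤ C := by nlinarith
  have hC1 : 1 ≤ C := by nlinarith
  obtain ⟨V₀, hV₀⟩ : ∃ V₀, V₀ = 2 + 2 * (M * k₂) + V₁ + V₂ + C₂ := ⟨_, rfl⟩
  refine ⟨Jf, wf, C, V₀, hC1, by linarith, near_mono hI.near (by nlinarith) (by linarith)
    (by linarith), ?_⟩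
  intro K f χ ps cb hK2 hKp hKs hf p₀ p₁ v q hT hcont N a₁ a₂ V T a' b' hV hT0 ha hab hb hP
  have hf' : ∀ p, dX 0 f p = dX 0 Fh p + dX 0 K p ∧ dX 1 f p = dX 1 Fh p + dX 1 K p := by
    intro p
    obtain ⟨f1, f2⟩ := hf p
    rw [hd0, hd1]
    refine ⟨f1, ?_⟩
    rw [f2]
    unfold g0 kap
    ring
  have hV0 : 0 < V := by linarith
  have hgx : ∀ p, |dX 0 f p| ≤ Cx + 1 := by
    intro p
    rw [(hf' p).1]
    exact (abs_add_le _ _).trans (add_le_add (hbx p) (dX_le hKs 0 p))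
  have hgx' : ∀ p, |α * dX 0 f p| ≤ M := by
    intro p
    rw [abs_mul, abs_of_pos hα]
    have h2 := mul_le_mul_of_nonneg_left (hgx p) hα.le
    have h3 : 0 ≤ γ * ((Cy + 1) + |b| * (Cx + 1)) := by positivity
    linarith
  have hgy' : ∀ p, |γ * (dX 1 f p + b * dX 0 f p)| ≤ M := by
    intro p
    rw [abs_mul, abs_of_pos hγ]
    have h1 : |dX 1 f p| ≤ Cy + 1 := by
      rw [(hf' p).2]
      exact (abs_add_le _ _).trans (add_le_add (hby p) (dX_le hKs 1 p))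
    have h2 : |dX 1 f p + b * dX 0 f p| ≤ (Cy + 1) + |b| * (Cx + 1) := by
      refine (abs_add_le _ _).trans (add_le_add h1 ?_)
      rw [abs_mul]
      exact mul_le_mul_of_nonneg_left (hgx p) hb0
    have h3 := mul_le_mul_of_nonneg_left h2 hγ.le
    have h4 : 0 ≤ α * (Cx + 1) := by positivity
    linarith
  -- the state stays in the range of the estimates
  have hr : ∀ s ∈ Icc a' b', ∀ t ∈ Icc T (T + k₂), V - M * k₂ ≤ v s t ∧ |q s t| ≤ 2 + M * k₂ := by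
    intro s hs t ht
    obtain ⟨hp1, hp2⟩ := hP s hs
    have h1 := stay (v := v s) (g := fun t => α * dX 0 f (pt (p₀ s t) (p₁ s t) t))
      (fun t => (hT s t).2.2.1) (fun t => hgx' _) hM0 ht
    have h2 := stay (v := q s) (g := fun t => γ * (dX 1 f (pt (p₀ s t) (p₁ s t) t) +
      b * dX 0 f (pt (p₀ s t) (p₁ s t) t))) (fun t => (hT s t).2.2.2) (fun t => hgy' _) hM0 ht
    constructor
    · have := neg_abs_le (v s t - v s T)
      linarith
    · have h3 := abs_sub_abs_le_abs_sub (q s t) (q s T)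
      linarith
  obtain ⟨G, hGe⟩ : ∃ G, G = mkFam b Jf wf p₀ p₁ v q N := ⟨_, rfl⟩
  have hGX : ∀ s t, G.X s t = p₀ s t - b * (p₁ s t - N) := fun s t => by rw [hGe]; rfl
  have hGY : ∀ s t, G.Y s t = p₁ s t - N := fun s t => by rw [hGe]; rfl
  have hGJ : ∀ s t, G.J s t = Jf (v s t) (q s t) (pt (p₀ s t) (p₁ s t) t) :=
    fun s t => by rw [hGe]; rfl
  have hGw : ∀ s t, G.w s t = wf (v s t) (q s t) (pt (p₀ s t) (p₁ s t) t) :=
    fun s t => by rw [hGe]; rfl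
  have hst : ∀ s ∈ Icc a' b', ∀ t ∈ Icc T (T + k₂), V₁ < v s t ∧ |q s t| < R ∧
      V / 2 ≤ G.J s t ∧ |G.w s t| ≤ R := by
    intro s hs t ht
    obtain ⟨h1, h2⟩ := hr s hs t ht
    have h3 : V₁ < v s t := by linarith
    have h4 : |q s t| < R := by linarith
    obtain ⟨h5, h6, -, -⟩ := hI.eqs (v s t) (q s t) (pt (p₀ s t) (p₁ s t) t) h3.le h4.le
    rw [← hGJ] at h5
    rw [← hGw] at h6
    have h7 : C₁ / v s t ≤ 1 := by
      rw [div_le_one (by linarith)]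
      linarith
    refine ⟨h3, h4, ?_, ?_⟩
    · have := neg_abs_le (G.J s t - v s t)
      linarith
    · have h8 := abs_sub_abs_le_abs_sub (G.w s t) (q s t)
      linarith
  have hkx : ∀ p, |dX 0 K p| ≤ 2 + |b| := fun p => (dX_le hKs 0 p).trans (by linarith)
  have hkz : ∀ p, |dX 1 K p + b * dX 0 K p| ≤ 2 + |b| := by
    intro p
    refine (abs_add_le _ _).trans ?_
    rw [abs_mul]
    have h1 := dX_le hKs 1 p
    have h2 := mul_le_mul_of_nonneg_left (dX_le hKs 0 p) hb0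
    linarith
  have hLs : ∀ s ∈ Icc a' b', ∀ s' ∈ Icc a' b', ∀ t ∈ Icc T (T + k₂), _ := fun s hs s' hs' t ht =>
    hL V (G.J s t) (G.J s' t) (G.w s t) (G.w s' t)
      (dX 0 K (pt (p₀ s t) (p₁ s t) t))
      (dX 1 K (pt (p₀ s t) (p₁ s t) t) + b * dX 0 K (pt (p₀ s t) (p₁ s t) t))
      (dX 0 K (pt (p₀ s' t) (p₁ s' t) t))
      (dX 1 K (pt (p₀ s' t) (p₁ s' t) t) + b * dX 0 K (pt (p₀ s' t) (p₁ s' t) t))
      (pt (p₀ s t) (p₁ s t) t) (pt (p₀ s' t) (p₁ s' t) t) (by linarith)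
      (hst s hs t ht).2.2.1 (hst s' hs' t ht).2.2.1 (hst s hs t ht).2.2.2 (hst s' hs' t ht).2.2.2
      (hkx _) (hkz _) (hkx _) (hkz _) rfl
  have herr : ∀ s ∈ Icc a' b', ∀ t ∈ Icc T (T + k₂), _ := fun s hs t ht =>
    errs (κ := κ) (l := l) (c := c) ava hα hγ hk hFh hσ hh hρ hx hres hC₁ hV₁ hI hS.2 hKp hf'
      χ ps cb N s (hT s) t (hst s hs t ht).1 (hst s hs t ht).2.1
      (by
        have h1 := (hLs s hs s hs t ht).1
        rw [hGJ, hGw] at h1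
        exact h1)
  obtain ⟨e, hee⟩ : ∃ e, e = mkEnv κ α γ b l c k χ ps cb S K := ⟨_, rfl⟩
  simp only [← hGe, ← hee] at herr
  have hCV : ∀ x : ℝ, x ≤ C → x / V ≤ C / V := fun x hx => by gcongr
  have hC₂V : C₂ / V ≤ 1 := by
    rw [div_le_one hV0]
    linarith
  rw [← hGe, ← hee]
  constructor
  · refine ⟨fun s hs t ht => (herr s hs t ht).1, fun s hs t ht => ?_,
      fun s hs s' hs' t ht => ?_, fun t ht => ?_⟩
    · obtain ⟨-, eeX, eeY, eew, eeJ, eKx, eKz⟩ := herr s hs t ht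
      obtain ⟨-, h1, h2, h3, h4, -, -, -, -⟩ := hLs s hs s hs t ht
      have hκ : e.κ = κ := by rw [hee]; rfl
      rw [eeX, eeY, eew, eeJ, eKx, eKz, hκ]
      refine ⟨h1.trans (hCV _ hC₂C'), h2.trans (hCV _ hC₂C'), h4.trans (hCV _ hC₂C'),
        h3.trans (add_le_add ?_ ?_)⟩
      · have : 0 ≤ C₂ / V := by positivity
        exact pow_le_pow_left₀ this (hCV _ hC₂C') _
      · exact mul_le_mul_of_nonneg_right (hCV _ hC₂C') (by positivity)
    · obtain ⟨-, eeX, eeY, eew, eeJ, -, -⟩ := herr s hs t ht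
      obtain ⟨-, eeX', eeY', eew', eeJ', -, -⟩ := herr s' hs' t ht
      obtain ⟨-, -, -, -, -, h1, h2, h3, h4⟩ := hLs s hs s' hs' t ht
      rw [eeX, eeY, eew, eeJ, eeX', eeY', eew', eeJ']
      obtain ⟨p, hp⟩ : ∃ p, p = pt (p₀ s t) (p₁ s t) t := ⟨_, rfl⟩
      obtain ⟨p', hp'⟩ : ∃ p', p' = pt (p₀ s' t) (p₁ s' t) t := ⟨_, rfl⟩
      rw [← hp, ← hp'] at h1 h2 h3 h4 ⊢
      have hpp : p.2 = p'.2 := by rw [hp, hp']; rfl
      have hp0 : p.1 0 = p₀ s t := by rw [hp]; rfl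
      have hp1 : p.1 1 = p₁ s t := by rw [hp]; rfl
      have hp0' : p'.1 0 = p₀ s' t := by rw [hp']; rfl
      have hp1' : p'.1 1 = p₁ s' t := by rw [hp']; rfl
      have k1 := lipK hK2 hKs 0 p p' hpp
      have k2 := lipK hK2 hKs 1 p p' hpp
      have k3 : |dX 1 K p + b * dX 0 K p - (dX 1 K p' + b * dX 0 K p')| ≤
          (1 + |b|) * (|p.1 0 - p'.1 0| + |p.1 1 - p'.1 1|) := by
        have e1 : dX 1 K p + b * dX 0 K p - (dX 1 K p' + b * dX 0 K p') =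
            (dX 1 K p - dX 1 K p') + b * (dX 0 K p - dX 0 K p') := by ring
        rw [e1]
        refine (abs_add_le _ _).trans ?_
        rw [abs_mul]
        have := mul_le_mul_of_nonneg_left k1 hb0
        linarith
      have k4 := sum_le (b := b) (X := G.X s t) (X' := G.X s' t) (Y := G.Y s t) (Y' := G.Y s' t)
        (P := G.J s t) (P' := G.J s' t) (W := G.w s t) (W' := G.w s' t)
        (by rw [hGX, hGY, hp0]) (by rw [hGX, hGY, hp0']) (by rw [hGY, hGY, hp1, hp1']; ring) k1 k3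
      have hdst : dst G s s' t = |G.X s t - G.X s' t| + |G.J s t - G.J s' t| +
        |G.Y s t - G.Y s' t| + |G.w s t - G.w s' t| := rfl
      rw [← hdst] at k4
      have hdst0 : 0 ≤ dst G s s' t := by
        rw [hdst]
        positivity
      have k5 : C₂ / V * (|p.1 0 - p'.1 0| + |p.1 1 - p'.1 1| + |G.J s t - G.J s' t| +
          |G.w s t - G.w s' t| + |dX 0 K p - dX 0 K p'| +
          |dX 1 K p + b * dX 0 K p - (dX 1 K p' + b * dX 0 K p')|) ≤ C / V * dst G s s' t := by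
        have m1 := mul_le_mul_of_nonneg_left k4 (by positivity : 0 ≤ C₂ / V)
        have m2 : C₂ / V * ((3 + |b|) * (1 + |b|) * dst G s s' t) =
            (C₂ * ((3 + |b|) * (1 + |b|))) / V * dst G s s' t := by ring
        have m3 := mul_le_mul_of_nonneg_right (hCV _ hC₂C) hdst0
        linarith
      have k6 : C₂ / V * (|p.1 0 - p'.1 0| + |p.1 1 - p'.1 1| + |G.J s t - G.J s' t| +
          |G.w s t - G.w s' t|) ≤ C / V * dst G s s' t := by
        refine le_trans (mul_le_mul_of_nonneg_left ?_ (by positivity)) k5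
        have := abs_nonneg (dX 0 K p - dX 0 K p')
        have := abs_nonneg (dX 1 K p + b * dX 0 K p - (dX 1 K p' + b * dX 0 K p'))
        linarith
      exact ⟨h1.trans k6, h2.trans k6, h4.trans k5, h3.trans k5⟩
    · obtain ⟨c1, c2, c3, c4⟩ := hcont t
      have c5 : ContinuousOn (fun s => (v s t, q s t, pt (p₀ s t) (p₁ s t) t)) (Icc a' b') := by
        refine Continuous.continuousOn ?_
        unfold pt
        fun_prop
      have c6 : MapsTo (fun s => (v s t, q s t, pt (p₀ s t) (p₁ s t) t)) (Icc a' b')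
          {z : ℝ × ℝ × E 1 | V₁ ≤ z.1 ∧ |z.2.1| ≤ R} :=
        fun s hs => ⟨(hst s hs t ht).1.le, (hst s hs t ht).2.1.le⟩
      have c7 := hI.cts.comp c5 c6
      rw [hGe]
      refine ⟨?_, c7.fst, ?_, c7.snd⟩
      · refine Continuous.continuousOn ?_
        show Continuous fun s => p₀ s t - b * (p₁ s t - N)
        fun_prop
      · refine Continuous.continuousOn ?_
        show Continuous fun s => p₁ s t - N
        fun_prop
  · intro s hs t ht V' hV' hJ hw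
    obtain ⟨-, eeX, eeY, -, -, -, -⟩ := herr s hs t ht
    obtain ⟨-, h1, h2, -, -, -, -, -, -⟩ := hLs s hs s hs t ht
    obtain ⟨-, -, hX, hY⟩ := hI.eqs (v s t) (q s t) (pt (p₀ s t) (p₁ s t) t)
      (hst s hs t ht).1.le (hst s hs t ht).2.1.le
    rw [← hGJ, ← hGw] at hX hY
    have h3 := abs_le.1 (h1.trans hC₂V)
    have h4 := abs_le.1 (h2.trans hC₂V)
    have h5 := abs_le.1 hw
    refine ⟨by linarith, abs_le.2 ⟨by linarith, by linarith⟩⟩

end Pool.Agent.Helper69.EK
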