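import Pool.Agent.Helper69.EK.Stm
import Pool.Graph.R_pool_sql_team_seeded_1e53cb71.Helper6K9.ES.Mol

set_option autoImplicit false

/-! EK part MOL: smoothing to all orders. -/

namespace Pool.Agent.Helper69.EK

open Set Filter Topology Pool.Agent.Helper6K9.ES
open Pool.Agent.Helper6K9.EH (Prof Fam eX eY dst pt Tr mkFam Pv Shf S_PROF S_FLOW)
open scoped ContDiff
open MolL

namespace MOLL

theorem approx {m : ℕ} (κ : ℕ) : ∀ (β : Type) [NormedAddCommGroup β] [NormedSpace ℝ β]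
    [CompleteSpace β] (g : E m → β), ContDiff ℝ κ g → PerV g → ∀ ε : ℝ, 0 < ε →
    ∃ δ : ℝ, 0 < δ ∧ ∀ φ : ContDiffBump (0 : E m), φ.rOut ≤ δ → ∀ j ≤ κ, ∀ x,
      ‖iteratedFDeriv ℝ j (fun p => mo φ g p - g p) x‖ ≤ ε := by
  induction κ with
  | zero =>
    intro β _ _ _ g hg hp ε hε
    obtain ⟨δ, hδ, h⟩ := uc_per g hg.continuous hp ε hε
    refine ⟨δ, hδ, fun φ hφ j hj x => ?_⟩
    obtain rfl : j = 0 := Nat.le_zero.1 hj
    rw [norm_iteratedFDeriv_zero]
    exact mo_close φ g hg.continuous (fun p q hpq => h p q (lt_of_lt_of_le hpq hφ)) x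
  | succ κ ih =>
    intro β _ _ _ g hg hp ε hε
    have hg1 : ContDiff ℝ 1 g := hg.of_le (by
      have : ((1 : ℕ) : WithTop ℕ∞) ≤ ((κ + 1 : ℕ) : WithTop ℕ∞) := by
        exact_mod_cast Nat.le_add_left 1 κ
      exact_mod_cast this)
    have hg' : ContDiff ℝ κ (fderiv ℝ g) := hg.fderiv_right (by push_cast; exact le_rfl)
    obtain ⟨δ1, hδ1, h1⟩ := ih (E m →L[ℝ] β) (fderiv ℝ g) hg' (per_fderiv g hp) ε hε
    obtain ⟨δ0, hδ0, h0⟩ := uc_per g hg.continuous hp ε hε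
    refine ⟨min δ0 δ1, lt_min hδ0 hδ1, fun φ hφ j hj x => ?_⟩
    have hφ0 := hφ.trans (min_le_left _ _)
    have hφ1 := hφ.trans (min_le_right _ _)
    rcases j with _ | j
    · rw [norm_iteratedFDeriv_zero]
      exact mo_close φ g hg.continuous (fun p q hpq => h0 p q (lt_of_lt_of_le hpq hφ0)) x
    · have hd : fderiv ℝ (fun p => mo φ g p - g p) =
          fun p => mo φ (fderiv ℝ g) p - fderiv ℝ g p := by
        ext1 y
        have a1 := mo_hasFDerivAt φ g hg1 hp y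
        have a2 := ((hg1.differentiable (by norm_num)) y).hasFDerivAt
        exact (a1.sub a2).fderiv
      rw [← norm_iteratedFDeriv_fderiv, hd]
      exact h1 φ hφ1 j (by omega) x

end MOLL

open MOLL in
theorem mol : S_MOL := by
  intro κ m f ε hε hf hp
  have hp0 : PerV f := hp
  obtain ⟨δ, hδ, h⟩ := approx κ ℝ f hf hp0 ε hε
  let φ : ContDiffBump (0 : E m) := ⟨δ / 2, δ, half_pos hδ, half_lt_self hδ⟩
  exact ⟨mo φ f, ⟨mo_smooth φ f hf.continuous, mo_per φ f hp0⟩,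
    fun j hj p => h φ le_rfl j hj p⟩

end Pool.Agent.Helper69.EK
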